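import Mathlib

set_option autoImplicit false

/-!
# MP_569b45_lc: three-machine flow shop, definitions

An instance is given by the number `n` of jobs, the processing times `p j i` (job `j`, machine `i`),
natural numbers, and a bound `L`.
-/

namespace Pool.Agent.Helper73.FSB

/-- The binary code of a number: every binary digit, most significant first, is preceded by a `1`,
and a `0` marks the end. -/
def encNat (m : ℕ) : List Bool := m.bits.reverse.flatMap (fun b => [true, b]) ++ [false]

/-- The binary code of an instance: the codes of `L` and of the processing times of the jobs, one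
job after the other. -/
def encode (n : ℕ) (p : Fin n → Fin 3 → ℕ) (L : ℕ) : List Bool :=
  encNat L ++ (List.finRange n).flatMap
    (fun j => encNat (p j 0) ++ (encNat (p j 1) ++ encNat (p j 2)))

/-- The parameter: the largest processing time. -/
def pMax (n : ℕ) (p : Fin n → Fin 3 → ℕ) : ℕ :=
  Finset.univ.sup (fun x : Fin n × Fin 3 => p x.1 x.2)

/-- A schedule: real start times `s j i ≥ 0`, an operation of a job starts not before the completion
of the preceding operation of this job, and of two operations of different jobs on the same
machine one starts not before the completion of the other. -/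
structure IsSchedule (n : ℕ) (p : Fin n → Fin 3 → ℕ) (s : Fin n → Fin 3 → ℝ) : Prop where
  nonneg : ∀ j i, 0 ≤ s j i
  order : ∀ j, s j 0 + p j 0 ≤ s j 1 ∧ s j 1 + p j 1 ≤ s j 2
  machine : ∀ (i : Fin 3) (j j' : Fin n), j ≠ j' →
    s j i + p j i ≤ s j' i ∨ s j' i + p j' i ≤ s j i

/-- The weaker reading, in which operations of length `0` occupy no time: at each moment at most one
operation is running on a machine. -/
structure IsLooseSchedule (n : ℕ) (p : Fin n → Fin 3 → ℕ) (s : Fin n → Fin 3 → ℝ) : Prop where
  nonneg : ∀ j i, 0 ≤ s j i
  order : ∀ j, s j 0 + p j 0 ≤ s j 1 ∧ s j 1 + p j 1 ≤ s j 2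
  machine : ∀ (i : Fin 3) (t : ℝ) (j j' : Fin n), s j i ≤ t → t < s j i + p j i →
    s j' i ≤ t → t < s j' i + p j' i → j = j'

/-- The makespan of `s` is at most `L`. -/
def MakespanLE (n : ℕ) (p : Fin n → Fin 3 → ℕ) (s : Fin n → Fin 3 → ℝ) (L : ℝ) : Prop :=
  ∀ j i, s j i + p j i ≤ L

end Pool.Agent.Helper73.FSB
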