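import Pool.Agent.Helper73.FSB.Fin
import Pool.Agent.Helper73.FSB.Defs

set_option autoImplicit false

/-!
# MP_569b45_lc: real start times, the two readings, the code
-/

namespace Pool.Agent.Helper73.FSB

open Pool.Agent.Helper77

theorem encNat_eq (m : ℕ) : encNat m = bn m := rfl

theorem encode_eq (n : ℕ) (p : Fin n → Fin 3 → ℕ) (L : ℕ) : encode n p L =
    (L :: (List.ofFn (fun j : Fin n => List.ofFn (fun i : Fin 3 => p j i))).flatten).flatMap bn := by
  rw [List.flatMap_cons, ← encNat_eq]
  unfold encode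
  congr 1
  have h1 : (List.ofFn (fun j : Fin n => List.ofFn (fun i : Fin 3 => p j i))) =
      (List.ofFn p).map (fun f => List.ofFn (fun i : Fin 3 => f i)) := by
    rw [List.map_ofFn]; rfl
  rw [h1, bits_eq]
  unfold jbits2
  rw [List.ofFn_eq_map, List.flatMap_map]
  rfl

theorem floor_add_le {a b : ℝ} {p : ℕ} (ha : 0 ≤ a) (h : a + p ≤ b) : ⌊a⌋₊ + p ≤ ⌊b⌋₊ := by
  rw [← Nat.floor_add_natCast ha p]
  exact Nat.floor_le_floor h

theorem real_iff (n : ℕ) (p : Fin n → Fin 3 → ℕ) (L : ℕ) :
    (∃ s, IsSched n p L s) ↔ ∃ s, IsSchedule n p s ∧ MakespanLE n p s L := by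
  constructor
  · rintro ⟨s, h1, h2, h3⟩
    refine ⟨fun j i => (s j i : ℝ), ⟨fun j i => Nat.cast_nonneg _, fun j => ?_, fun i j j' hj => ?_⟩,
      fun j i => ?_⟩
    · exact ⟨by exact_mod_cast (h1 j).1, by exact_mod_cast (h1 j).2⟩
    · rcases h2 i j j' hj with h | h
      · exact Or.inl (by exact_mod_cast h)
      · exact Or.inr (by exact_mod_cast h)
    · have h := h1 j
      have h' := h3 j
      have : s j i + p j i ≤ L := by
        fin_cases i
        · show s j 0 + p j 0 ≤ L
          omega
        · show s j 1 + p j 1 ≤ L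
          omega
        · exact h'
      show ((s j i : ℕ) : ℝ) + (p j i : ℝ) ≤ (L : ℝ)
      exact_mod_cast this
  · rintro ⟨s, hs, hL⟩
    refine ⟨fun j i => ⌊s j i⌋₊, fun j => ⟨floor_add_le (hs.nonneg j 0) (hs.order j).1,
      floor_add_le (hs.nonneg j 1) (hs.order j).2⟩, fun i j j' hj => ?_, fun j => ?_⟩
    · rcases hs.machine i j j' hj with h | h
      · exact Or.inl (floor_add_le (hs.nonneg j i) h)
      · exact Or.inr (floor_add_le (hs.nonneg j' i) h)
    · have h := floor_add_le (hs.nonneg j 2) (hL j 2)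
      rwa [Nat.floor_natCast] at h

theorem IsSchedule.loose {n : ℕ} {p : Fin n → Fin 3 → ℕ} {s : Fin n → Fin 3 → ℝ}
    (hs : IsSchedule n p s) : IsLooseSchedule n p s := by
  refine ⟨hs.nonneg, hs.order, fun i t j j' h1 h2 h3 h4 => ?_⟩
  by_contra hj
  rcases hs.machine i j j' hj with h | h <;> linarith

theorem disj_of_pos {n : ℕ} {p : Fin n → Fin 3 → ℕ} {s : Fin n → Fin 3 → ℝ}
    (hs : IsLooseSchedule n p s) (i : Fin 3) (j j' : Fin n) (hj : j ≠ j') (h1 : 0 < p j i)
    (h2 : 0 < p j' i) : s j i + p j i ≤ s j' i ∨ s j' i + p j' i ≤ s j i := by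
  by_contra hc
  rw [not_or, not_le, not_le] at hc
  have h1' : (0 : ℝ) < p j i := by exact_mod_cast h1
  have h2' : (0 : ℝ) < p j' i := by exact_mod_cast h2
  refine hj (hs.machine i (max (s j i) (s j' i)) j j' (le_max_left _ _) ?_ (le_max_right _ _) ?_)
  · exact max_lt (by linarith) hc.1
  · exact max_lt hc.2 (by linarith)

theorem loose_iff (n : ℕ) (p : Fin n → Fin 3 → ℕ) (L : ℕ) (hp : ∀ j, 0 < p j 1) :
    (∃ s, IsSchedule n p s ∧ MakespanLE n p s L) ↔
      ∃ s, IsLooseSchedule n p s ∧ MakespanLE n p s L := by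
  constructor
  · rintro ⟨s, hs, hL⟩
    exact ⟨s, hs.loose, hL⟩
  · rintro ⟨s, hs, hL⟩
    refine ⟨fun j => ![if p j 0 = 0 then 0 else s j 0, s j 1, if p j 2 = 0 then (L : ℝ) else s j 2],
      ⟨fun j i => ?_, fun j => ⟨?_, ?_⟩, fun i j j' hj => ?_⟩, fun j i => ?_⟩
    · fin_cases i
      · show (0 : ℝ) ≤ if p j 0 = 0 then 0 else s j 0
        split_ifs
        · exact le_rfl
        · exact hs.nonneg j 0
      · exact hs.nonneg j 1
      · show (0 : ℝ) ≤ if p j 2 = 0 then (L : ℝ) else s j 2
        split_ifs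
        · exact Nat.cast_nonneg _
        · exact hs.nonneg j 2
    · show (if p j 0 = 0 then 0 else s j 0) + (p j 0 : ℝ) ≤ s j 1
      split_ifs with h
      · rw [h]
        simpa using hs.nonneg j 1
      · exact (hs.order j).1
    · show s j 1 + (p j 1 : ℝ) ≤ if p j 2 = 0 then (L : ℝ) else s j 2
      split_ifs with h
      · exact hL j 1
      · exact (hs.order j).2
    · fin_cases i
      · show (if p j 0 = 0 then 0 else s j 0) + (p j 0 : ℝ) ≤ (if p j' 0 = 0 then 0 else s j' 0) ∨
          (if p j' 0 = 0 then 0 else s j' 0) + (p j' 0 : ℝ) ≤ (if p j 0 = 0 then 0 else s j 0)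
        by_cases h : p j 0 = 0
        · left
          rw [if_pos h, h]
          split_ifs
          · simp
          · simpa using hs.nonneg j' 0
        · by_cases h' : p j' 0 = 0
          · right
            rw [if_pos h', h', if_neg h]
            simpa using hs.nonneg j 0
          · rw [if_neg h, if_neg h']
            exact disj_of_pos hs 0 j j' hj (Nat.pos_of_ne_zero h) (Nat.pos_of_ne_zero h')
      · exact disj_of_pos hs 1 j j' hj (hp j) (hp j')
      · show (if p j 2 = 0 then (L : ℝ) else s j 2) + (p j 2 : ℝ) ≤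
            (if p j' 2 = 0 then (L : ℝ) else s j' 2) ∨
          (if p j' 2 = 0 then (L : ℝ) else s j' 2) + (p j' 2 : ℝ) ≤
            (if p j 2 = 0 then (L : ℝ) else s j 2)
        by_cases h' : p j' 2 = 0
        · left
          rw [if_pos h']
          split_ifs with h
          · rw [h]
            simp
          · exact hL j 2
        · by_cases h : p j 2 = 0
          · right
            rw [if_pos h, if_neg h']
            exact hL j' 2
          · rw [if_neg h, if_neg h']
            exact disj_of_pos hs 2 j j' hj (Nat.pos_of_ne_zero h) (Nat.pos_of_ne_zero h')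
    · fin_cases i
      · show (if p j 0 = 0 then 0 else s j 0) + (p j 0 : ℝ) ≤ L
        split_ifs with h
        · rw [h]
          simp
        · exact hL j 0
      · exact hL j 1
      · show (if p j 2 = 0 then (L : ℝ) else s j 2) + (p j 2 : ℝ) ≤ L
        split_ifs with h
        · rw [h]
          simp
        · exact hL j 2

end Pool.Agent.Helper73.FSB
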