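import Pool.Agent.Helper77.Prim

set_option autoImplicit false

/-!
# MP_569b45_lc: the flow shop machine for binary input

The control of `Pool.Agent.Helper77` with two new modes (9: a digit of the bound, 10: a digit of a
processing time), and its runs.  The proofs of the unchanged modes are those of
`Pool.Agent.Helper77.RunL`, `RunA`.
-/

namespace Pool.Agent.Helper73.FSB

open Pool.Agent.Helper77 Pool.Agent.Helper77.Net

/-- The algorithm: from the symbol read and the state, compute the stack and the number to be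
written and the new state. -/
def G (x : ℕ) (s : St) : (Bool × ℕ) × St :=
  if s.1 = 0 then
    (if x = 2 then ((true, 0), (9, s.2.1, 0, []))
    else if x = 1 then ((true, 0), (1, s.2.1, 0, []))
    else ((true, 0), (6, s.2.1, 0, [])))
  else if s.1 = 1 then
    (if x = 2 then ((true, 0), (10, s.2.1, s.2.2.1, s.2.2.2))
    else if x = 1 then
      (if s.2.2.2.length = 2 then
        ((true, 0), (3, max s.2.1 (Nat.pair (s.2.2.2.getD 0 0)
            (Nat.pair (s.2.2.2.getD 1 0) s.2.2.1) + 2),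
          Nat.pair (s.2.2.2.getD 0 0) (Nat.pair (s.2.2.2.getD 1 0) s.2.2.1) + 1, []))
      else ((true, 0), (1, s.2.1, 0, s.2.2.2 ++ [s.2.2.1])))
    else ((true, 0), (6, s.2.1, 0, [])))
  else if s.1 < 4 then
    (if s.2.2.1 ∈ dcl x then
      ((true, ecl ((dcl x).filter (fun b => decide (b ≠ s.2.2.1)))), (s.1, s.2.1, s.2.2.1, []))
    else ((true, ecl (s.2.2.1 :: dcl x)), (s.1 + 2, s.2.1, 0, [])))
  else if s.1 < 6 then
    (if x = 0 then ((true, 0), (s.1 - 4, s.2.1, 0, []))
    else ((false, x), (s.1, s.2.1, 0, [])))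
  else if s.1 = 6 then
    (if x = 0 then ((false, 0), (7, s.2.1, 0, []))
    else ((true, x), (6, s.2.1, 0, [])))
  else if s.1 = 9 then
    (if x = 2 then ((false, ecl [0]), (0, s.2.1, 0, []))
    else ((false, ecl []), (0, s.2.1, 0, [])))
  else if s.1 = 10 then
    (if x = 2 then ((true, 0), (1, s.2.1, 2 * s.2.2.1 + 1, s.2.2.2))
    else ((true, 0), (1, s.2.1, 2 * s.2.2.1, s.2.2.2)))
  else
    (if x = 0 then ((decide (sdec s.2.1 s.2.2.2), 0), (8, s.2.1, 0, []))
    else ((false, 0), (7, s.2.1, 0, red s.2.1 (s.2.2.2 ++ (s.2.2.2 ++ dcl x)))))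

def dtab2 (m : ℕ) : Bool :=
  [true, true, false, false, false, false, false, false, true, true, true].getD m true
def etab2 (m : ℕ) : Bool :=
  [false, false, false, false, true, true, false, true, true, false, false].getD m true

/-- The control. -/
def CC2 : Ctl where
  w := fun x q => (G x (stq q)).1.1
  d := fun x q => dtab2 (G x (stq q)).2.1
  e := fun x q => etab2 (G x (stq q)).2.1
  y := fun x q => (G x (stq q)).1.2
  q := fun x q => eq' (G x (stq q)).2

theorem step_V {q : ℕ} {I : List Bool} {V W : List ℕ} {w : Bool} {y : ℕ} {s : St}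
    (h : G V.headI (stq q) = ((w, y), s)) :
    ostep CC2 ⟨.rv false, q, I, sv V W⟩ = ⟨dirOf w (dtab2 s.1) (etab2 s.1), eq' s, I,
      sv (cond w V.tail (y :: V.tail)) (cond w (y :: W) W)⟩ := by
  have h1 : OC.x ⟨.rv false, q, I, sv V W⟩ = V.headI := rfl
  have h2 : OC.S1 ⟨.rv false, q, I, sv V W⟩ = sv V.tail W := by
    unfold OC.S1; exact update_sv_false _ _ _
  have h3 : OC.I1 ⟨.rv false, q, I, sv V W⟩ = I := rfl
  unfold ostep
  rw [h1, h2, h3]
  simp only [CC2, h]
  congr 1
  cases w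
  · exact update_sv_false _ _ _
  · exact update_sv_true _ _ _

theorem step_W {q : ℕ} {I : List Bool} {V W : List ℕ} {w : Bool} {y : ℕ} {s : St}
    (h : G W.headI (stq q) = ((w, y), s)) :
    ostep CC2 ⟨.rv true, q, I, sv V W⟩ = ⟨dirOf w (dtab2 s.1) (etab2 s.1), eq' s, I,
      sv (cond w V (y :: V)) (cond w (y :: W.tail) W.tail)⟩ := by
  have h1 : OC.x ⟨.rv true, q, I, sv V W⟩ = W.headI := rfl
  have h2 : OC.S1 ⟨.rv true, q, I, sv V W⟩ = sv V W.tail := by
    unfold OC.S1; exact update_sv_true _ _ _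
  have h3 : OC.I1 ⟨.rv true, q, I, sv V W⟩ = I := rfl
  unfold ostep
  rw [h1, h2, h3]
  simp only [CC2, h]
  congr 1
  cases w
  · exact update_sv_false _ _ _
  · exact update_sv_true _ _ _

theorem step_I {q : ℕ} {I : List Bool} {V W : List ℕ} {w : Bool} {y : ℕ} {s : St}
    (h : G (bitv I) (stq q) = ((w, y), s)) :
    ostep CC2 ⟨.ri, q, I, sv V W⟩ = ⟨dirOf w (dtab2 s.1) (etab2 s.1), eq' s, I.tail,
      sv (cond w V (y :: V)) (cond w (y :: W) W)⟩ := by
  have h1 : OC.x ⟨.ri, q, I, sv V W⟩ = bitv I := rfl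
  have h2 : OC.S1 ⟨.ri, q, I, sv V W⟩ = sv V W := rfl
  have h3 : OC.I1 ⟨.ri, q, I, sv V W⟩ = I.tail := rfl
  unfold ostep
  rw [h1, h2, h3]
  simp only [CC2, h]
  congr 1
  cases w
  · exact update_sv_false _ _ _
  · exact update_sv_true _ _ _

/-- `B` bounds all the numbers used with at most `K` labels. -/
structure Bnd2 (B K : ℕ) : Prop where
  two : 2 ≤ B
  lev : ∀ P : List ℕ, P.Nodup → (∀ i ∈ P, i < K) → ecl P ≤ B
  sta : ∀ m ≤ 10, ∀ M ≤ K, ∀ a ≤ K, ∀ l : List ℕ, l.length ≤ 2 → (∀ i ∈ l, i ≤ K) →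
    eq' (m, M, a, l) ≤ B
  cnd : ∀ M ≤ K, ∀ l ∈ cands M, eq' (7, M, 0, l) ≤ B

theorem run_add {B K M a r : ℕ} (hB : Bnd2 B K) (hM : M ≤ K) (ha : a < M) (hr : r = 2 ∨ r = 3)
    (I : List Bool) : ∀ (L : List (List ℕ)) (_ : LOK M L) (q : ℕ) (_ : stq q = (r, M, a, []))
      (_ : q ≤ B) (Wt : List ℕ), ∃ (n : ℕ) (U V : List ℕ) (q' : ℕ), n ≤ L.length + 1 ∧
        ORun CC2 B n ⟨.rv false, q, I, sv (L.map ecl) Wt⟩ ⟨.rv true, q', I, sv V (U ++ Wt)⟩ ∧
        stq q' = (r + 2, M, 0, []) ∧ q' ≤ B ∧ U.length ≤ L.length + 1 ∧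
        U.reverse ++ V = (addL a L).map ecl := by
  have hd1 : dirOf true (dtab2 (r + 2)) (etab2 (r + 2)) = .rv true := by
    rcases hr with rfl | rfl <;> rfl
  have hd2 : dirOf true (dtab2 r) (etab2 r) = .rv false := by
    rcases hr with rfl | rfl <;> rfl
  have hr0 : ¬ r = 0 := by omega
  have hr1 : ¬ r = 1 := by omega
  have hr4 : r < 4 := by omega
  have hq2 : eq' (r + 2, M, 0, []) ≤ B := hB.sta _ (by omega) _ hM _ (by omega) [] (by simp) (by simp)
  have hq1 : eq' (r, M, a, []) ≤ B := hB.sta _ (by omega) _ hM _ (by omega) [] (by simp) (by simp)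
  intro L
  induction L with
  | nil =>
    intro _ q hq hqB Wt
    have h1 : G ([] : List ℕ).headI (stq q) = ((true, ecl [a]), (r + 2, M, 0, [])) := by
      rw [hq]; simp [G, hr0, hr1, hr4, dcl]
    refine ⟨1, [ecl [a]], [], eq' (r + 2, M, 0, []), by simp,
      ORun.one (by simp) (Nat.zero_le _) hqB ?_, stq_eq _, hq2, by simp, by simp [addL]⟩
    rw [List.map_nil, step_V h1, hd1]; rfl
  | cons P L ih =>
    intro hL q hq hqB Wt
    have hx : OC.x ⟨.rv false, q, I, sv ((P :: L).map ecl) Wt⟩ = ecl P := rfl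
    have hxB : ecl P ≤ B := hB.lev P (hL P (by simp)).1
      (fun i hi => ((hL P (by simp)).2 i hi).trans_le hM)
    by_cases hm : a ∈ P
    · have h1 : G ((P :: L).map ecl).headI (stq q) =
          ((true, ecl (P.erase a)), (r, M, a, [])) := by
        rw [hq, (hL P (by simp)).1.erase_eq_filter]
        have hf : P.filter (fun b => decide (b ≠ a)) = P.filter (fun x => x != a) := by
          apply List.filter_congr
          intro x _
          by_cases h : x = a <;> simp [h]
        rw [← hf]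
        simp only [G, hr0, hr1, hr4, List.map_cons, List.headI_cons, dcl_ecl, hm, if_true, if_false]
      obtain ⟨n, U, V, q', g1, g2, g3, g4, g5, g6⟩ := ih (fun Q hQ => hL Q (by simp [hQ]))
        (eq' (r, M, a, [])) (stq_eq _) hq1 (ecl (P.erase a) :: Wt)
      refine ⟨n + 1, U ++ [ecl (P.erase a)], V, q', by simpa using g1, ?_, g3, g4,
        by simpa using g5, ?_⟩
      · refine ORun.step _ _ _ (by simp) (by rw [hx]; exact hxB) hqB ?_
        rw [step_V h1, hd2]
        simpa using g2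
      · simp [addL, hm, g6]
    · have h1 : G ((P :: L).map ecl).headI (stq q) =
          ((true, ecl (a :: P)), (r + 2, M, 0, [])) := by
        rw [hq]; simp [G, hr0, hr1, hr4, dcl_ecl, hm]
      refine ⟨1, [ecl (a :: P)], L.map ecl, eq' (r + 2, M, 0, []), by simp,
        ORun.one (by simp) (by rw [hx]; exact hxB) hqB ?_, stq_eq _, hq2, by simp,
        by simp [addL, hm]⟩
      rw [step_V h1, hd1]; rfl

theorem run_unw {B K M r : ℕ} (hB : Bnd2 B K) (hM : M ≤ K) (hr : r = 4 ∨ r = 5)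
    (I : List Bool) (j : ℕ) : ∀ (U : List ℕ) (_ : ∀ u ∈ U, u ≠ 0 ∧ u ≤ B) (q : ℕ)
      (_ : stq q = (r, M, 0, [])) (_ : q ≤ B) (V : List ℕ), ∃ (q' j' : ℕ),
        ORun CC2 B (U.length + 1) ⟨.rv true, q, I, sv V (U ++ List.replicate j 0)⟩
          ⟨.ri, q', I, sv (U.reverse ++ V) (List.replicate j' 0)⟩ ∧
        stq q' = (r - 4, M, 0, []) ∧ q' ≤ B := by
  have hd1 : dirOf true (dtab2 (r - 4)) (etab2 (r - 4)) = .ri := by
    rcases hr with rfl | rfl <;> rfl
  have hd2 : dirOf false (dtab2 r) (etab2 r) = .rv true := by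
    rcases hr with rfl | rfl <;> rfl
  have hr0 : ¬ r = 0 := by omega
  have hr1 : ¬ r = 1 := by omega
  have hr4 : ¬ r < 4 := by omega
  have hr6 : r < 6 := by omega
  have hq1 : eq' (r - 4, M, 0, []) ≤ B :=
    hB.sta _ (by omega) _ hM _ (by omega) [] (by simp) (by simp)
  have hq2 : eq' (r, M, 0, []) ≤ B := hB.sta _ (by omega) _ hM _ (by omega) [] (by simp) (by simp)
  intro U
  induction U with
  | nil =>
    intro _ q hq hqB V
    obtain ⟨j', hj'⟩ := cons_tail_replicate j
    have h1 : G (List.replicate j 0).headI (stq q) = ((true, 0), (r - 4, M, 0, [])) := by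
      rw [hq, headI_replicate]; simp [G, hr0, hr1, hr4, hr6]
    have hx : OC.x ⟨.rv true, q, I, sv V ([] ++ List.replicate j 0)⟩ = 0 := headI_replicate j
    refine ⟨eq' (r - 4, M, 0, []), j', ORun.one (by simp) (by rw [hx]; exact Nat.zero_le _) hqB ?_,
      stq_eq _, hq1⟩
    rw [List.nil_append, step_W h1, hd1]
    simp only [cond_true, hj', List.reverse_nil, List.nil_append]
  | cons u U ih =>
    intro hU q hq hqB V
    have hu := hU u (by simp)
    have h1 : G ((u :: U) ++ List.replicate j 0).headI (stq q) = ((false, u), (r, M, 0, [])) := by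
      rw [hq]; simp [G, hr0, hr1, hr4, hr6, hu.1]
    have hx : OC.x ⟨.rv true, q, I, sv V ((u :: U) ++ List.replicate j 0)⟩ = u := rfl
    obtain ⟨q', j', g1, g2, g3⟩ := ih (fun v hv => hU v (by simp [hv])) (eq' (r, M, 0, []))
      (stq_eq _) hq2 (u :: V)
    refine ⟨q', j', ORun.step _ _ _ (by simp) (by rw [hx]; exact hu.2) hqB ?_, g2, g3⟩
    rw [step_W h1, hd2]
    simpa using g1

theorem run_item {B K M a r : ℕ} (hB : Bnd2 B K) (hM : M ≤ K) (ha : a < M) (hr : r = 0 ∨ r = 1)
    (I : List Bool) (j : ℕ) (L : List (List ℕ)) (hL : LOK M L) (q : ℕ)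
    (hq : stq q = (r + 2, M, a, [])) (hqB : q ≤ B) : ∃ (n q' j' : ℕ), n ≤ 2 * L.length + 3 ∧
      ORun CC2 B n ⟨.rv false, q, I, sv (L.map ecl) (List.replicate j 0)⟩
        ⟨.ri, q', I, sv ((addL a L).map ecl) (List.replicate j' 0)⟩ ∧
      stq q' = (r, M, 0, []) ∧ q' ≤ B := by
  obtain ⟨n, U, V, q1, g1, g2, g3, g4, g5, g6⟩ := run_add hB hM ha (r := r + 2) (by omega) I L hL
    q hq hqB (List.replicate j 0)
  have hU : ∀ u ∈ U, u ≠ 0 ∧ u ≤ B := by
    intro u hu
    have h1 : u ∈ (addL a L).map ecl := by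
      rw [← g6]; simp [hu]
    rw [List.mem_map] at h1
    obtain ⟨P, hP, rfl⟩ := h1
    have h2 := hL.addL ha P hP
    exact ⟨ecl_ne P, hB.lev P h2.1 (fun i hi => (h2.2 i hi).trans_le hM)⟩
  obtain ⟨q', j', k1, k2, k3⟩ := run_unw hB hM (r := r + 2 + 2) (by omega) I j U hU q1 g3 g4 V
  refine ⟨n + (U.length + 1), q', j', by omega, ?_, ?_, k3⟩
  · rw [← g6]; exact g2.trans k1
  · rw [k2]
    congr 1

/-! ### Reading binary numbers -/

/-- The value of a list of binary digits, most significant first, starting from `a`. -/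
def val (a : ℕ) (ds : List Bool) : ℕ := ds.foldl (fun a b => 2 * a + b.toNat) a

/-- The binary digits of `m`, most significant first. -/
def dg (m : ℕ) : List Bool := m.bits.reverse

/-- Every digit is preceded by `true`. -/
def dd (ds : List Bool) : List Bool := ds.flatMap (fun b => [true, b])

/-- The code of a number: `1 d₁ 1 d₂ … 1 dₗ 0`. -/
def bn (m : ℕ) : List Bool := dd (dg m) ++ [false]

theorem val_cons (a : ℕ) (b : Bool) (ds : List Bool) :
    val a (b :: ds) = val (2 * a + b.toNat) ds := rfl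

theorem le_val (a : ℕ) (ds : List Bool) : a ≤ val a ds := by
  induction ds generalizing a with
  | nil => exact le_rfl
  | cons b ds ih =>
    rw [val_cons]
    exact le_trans (by omega) (ih _)

theorem val_dg (m : ℕ) : val 0 (dg m) = m := by
  induction m using Nat.binaryRec' with
  | zero => simp [val, dg]
  | bit b n h ih =>
    unfold dg at ih ⊢
    rw [Nat.bits_append_bit n b h, List.reverse_cons]
    unfold val at ih ⊢
    rw [List.foldl_append, ih, Nat.bit_val]
    simp

theorem dd_cons (b : Bool) (ds : List Bool) : dd (b :: ds) = true :: b :: dd ds := rfl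

theorem length_dd (ds : List Bool) : (dd ds).length = 2 * ds.length := by
  induction ds with
  | nil => rfl
  | cons b ds ih =>
    rw [dd_cons, List.length_cons, List.length_cons, ih, List.length_cons]
    ring

theorem length_bn (m : ℕ) : (bn m).length = 2 * (dg m).length + 1 := by
  unfold bn
  rw [List.length_append, length_dd]
  rfl

/-- The level of a digit of the bound. -/
def lv (b : Bool) : List ℕ := if b then [0] else []

theorem run_T {B K : ℕ} (hB : Bnd2 B K) (hK : 1 ≤ K) (I : List Bool) :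
    ∀ (ds : List Bool) (L : List (List ℕ)) (_ : LOK 1 L) (v : ℕ)
      (_ : lval L = Multiset.replicate v 0) (q : ℕ)
      (_ : stq q = (0, 1, 0, [])) (_ : q ≤ B) (j : ℕ), ∃ (q' j' : ℕ) (L' : List (List ℕ)),
        ORun CC2 B (2 * ds.length) ⟨.ri, q, dd ds ++ I, sv (L.map ecl) (List.replicate j 0)⟩
          ⟨.ri, q', I, sv (L'.map ecl) (List.replicate j' 0)⟩ ∧
        stq q' = (0, 1, 0, []) ∧ q' ≤ B ∧ LOK 1 L' ∧ L'.length = L.length + ds.length ∧
        lval L' = Multiset.replicate (val v ds) 0 := by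
  intro ds
  induction ds with
  | nil =>
    intro L hL v hv q hq hqB j
    exact ⟨q, j, L, ORun.refl _, hq, hqB, hL, by simp, hv⟩
  | cons b ds ih =>
    intro L hL v hv q hq hqB j
    have h1 : G (bitv (true :: (b :: (dd ds ++ I)))) (stq q) = ((true, 0), (9, 1, 0, [])) := by
      rw [hq]; simp [G, bitv]
    have hq1 : eq' (9, 1, 0, []) ≤ B :=
      hB.sta _ (by omega) _ hK _ (by omega) [] (by simp) (by simp)
    have hq0 : eq' (0, 1, 0, []) ≤ B :=
      hB.sta _ (by omega) _ hK _ (by omega) [] (by simp) (by simp)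
    have h2 : G (bitv (b :: (dd ds ++ I))) (stq (eq' (9, 1, 0, []))) =
        ((false, ecl (lv b)), (0, 1, 0, [])) := by
      rw [stq_eq]
      cases b <;> simp [G, bitv, lv]
    have hL1 : LOK 1 (lv b :: L) := by
      intro P hP
      rcases List.mem_cons.1 hP with rfl | hP
      · cases b <;> simp [lv]
      · exact hL P hP
    have hv1 : lval (lv b :: L) = Multiset.replicate (2 * v + b.toNat) 0 := by
      rw [lval_cons, hv, ← Multiset.replicate_add, two_mul, Multiset.replicate_add _ b.toNat]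
      congr 1
      cases b <;> simp [lv]
    obtain ⟨q', j', L', k1, k2, k3, k4, k5, k6⟩ := ih (lv b :: L) hL1 _ hv1 (eq' (0, 1, 0, []))
      (stq_eq _) hq0 (j + 1)
    refine ⟨q', j', L', ?_, k2, k3, k4, ?_, k6⟩
    · have e1 : 2 * (b :: ds).length = 2 * ds.length + 1 + 1 := by
        rw [List.length_cons]; ring
      rw [e1]
      refine ORun.step _ _ _ (by simp) ?_ hqB ?_
      · have hx : OC.x ⟨.ri, q, dd (b :: ds) ++ I, sv (L.map ecl) (List.replicate j 0)⟩ = 2 := rfl
        rw [hx]; exact hB.two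
      · rw [dd_cons, List.cons_append, List.cons_append, step_I h1]
        refine ORun.step _ _ _ (by
          intro b'
          have : dirOf true (dtab2 9) (etab2 9) = .ri := rfl
          simp [this]) ?_ hq1 ?_
        · have hx : OC.x ⟨dirOf true (dtab2 9) (etab2 9), eq' (9, 1, 0, []),
              (true :: (b :: (dd ds ++ I))).tail, sv (cond true (L.map ecl) (0 :: L.map ecl))
                (cond true (0 :: List.replicate j 0) (List.replicate j 0))⟩ =
              bitv (b :: (dd ds ++ I)) := rfl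
          refine le_trans (le_of_eq hx) ?_
          have := hB.two
          cases b
          · show 1 ≤ B
            omega
          · exact this
        · have e2 := step_I (V := L.map ecl) (W := List.replicate (j + 1) 0) h2
          have e3 : ostep CC2 ⟨dirOf true (dtab2 9) (etab2 9), eq' (9, 1, 0, []),
              (true :: (b :: (dd ds ++ I))).tail, sv (cond true (L.map ecl) (0 :: L.map ecl))
                (cond true (0 :: List.replicate j 0) (List.replicate j 0))⟩ =
              ostep CC2 ⟨.ri, eq' (9, 1, 0, []), b :: (dd ds ++ I),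
                sv (L.map ecl) (List.replicate (j + 1) 0)⟩ := rfl
          refine Eq.subst (motive := fun z => ORun CC2 B _ z _) (e3.trans e2).symm ?_
          exact k1
    · rw [k5, List.length_cons, List.length_cons]; omega

theorem run_dig {B K M : ℕ} (hB : Bnd2 B K) (hM : M ≤ K) (I : List Bool) (V : List ℕ)
    (l : List ℕ) (hl : l.length ≤ 2) (hlK : ∀ i ∈ l, i ≤ K) :
    ∀ (ds : List Bool) (a : ℕ) (_ : val a ds ≤ K) (q : ℕ) (_ : stq q = (1, M, a, l)) (_ : q ≤ B)
      (j : ℕ), ∃ (q' j' : ℕ),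
        ORun CC2 B (2 * ds.length) ⟨.ri, q, dd ds ++ I, sv V (List.replicate j 0)⟩
          ⟨.ri, q', I, sv V (List.replicate j' 0)⟩ ∧
        stq q' = (1, M, val a ds, l) ∧ q' ≤ B := by
  intro ds
  induction ds with
  | nil =>
    intro a _ q hq hqB j
    exact ⟨q, j, ORun.refl _, hq, hqB⟩
  | cons b ds ih =>
    intro a ha q hq hqB j
    rw [val_cons] at ha
    have ha1 : 2 * a + b.toNat ≤ K := (le_val _ _).trans ha
    have h1 : G (bitv (true :: (b :: (dd ds ++ I)))) (stq q) = ((true, 0), (10, M, a, l)) := by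
      rw [hq]; simp [G, bitv]
    have hq1 : eq' (10, M, a, l) ≤ B := hB.sta _ (by omega) _ hM _ (by omega) l hl hlK
    have hq0 : eq' (1, M, 2 * a + b.toNat, l) ≤ B := hB.sta _ (by omega) _ hM _ ha1 l hl hlK
    have h2 : G (bitv (b :: (dd ds ++ I))) (stq (eq' (10, M, a, l))) =
        ((true, 0), (1, M, 2 * a + b.toNat, l)) := by
      rw [stq_eq]
      cases b <;> simp [G, bitv]
    obtain ⟨q', j', g1, g2, g3⟩ := ih (2 * a + b.toNat) ha (eq' (1, M, 2 * a + b.toNat, l))
      (stq_eq _) hq0 (j + 2)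
    refine ⟨q', j', ?_, g2, g3⟩
    have e1 : 2 * (b :: ds).length = 2 * ds.length + 1 + 1 := by
      rw [List.length_cons]; ring
    rw [e1]
    refine ORun.step _ _ _ (by simp) ?_ hqB ?_
    · have hx : OC.x ⟨.ri, q, dd (b :: ds) ++ I, sv V (List.replicate j 0)⟩ = 2 := rfl
      rw [hx]; exact hB.two
    · rw [dd_cons, List.cons_append, List.cons_append, step_I h1]
      have e2 := step_I (V := V) (W := List.replicate (j + 1) 0) h2
      refine ORun.step _ _ _ (by
          intro b'
          have : dirOf true (dtab2 10) (etab2 10) = .ri := rfl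
          simp [this]) ?_ hq1 ?_
      · have hx : OC.x ⟨dirOf true (dtab2 10) (etab2 10), eq' (10, M, a, l),
              (true :: (b :: (dd ds ++ I))).tail, sv (cond true V (0 :: V))
                (cond true (0 :: List.replicate j 0) (List.replicate j 0))⟩ =
              bitv (b :: (dd ds ++ I)) := rfl
        refine le_trans (le_of_eq hx) ?_
        have := hB.two
        cases b
        · show 1 ≤ B
          omega
        · exact this
      · have e3 : ostep CC2 ⟨dirOf true (dtab2 10) (etab2 10), eq' (10, M, a, l),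
              (true :: (b :: (dd ds ++ I))).tail, sv (cond true V (0 :: V))
                (cond true (0 :: List.replicate j 0) (List.replicate j 0))⟩ =
              ostep CC2 ⟨.ri, eq' (10, M, a, l), b :: (dd ds ++ I),
                sv V (List.replicate (j + 1) 0)⟩ := rfl
        refine Eq.subst (motive := fun z => ORun CC2 B _ z _) (e3.trans e2).symm ?_
        exact g1

/-- Reading a number which is not the last one of a job. -/
theorem run_num {B K M : ℕ} (hB : Bnd2 B K) (hM : M ≤ K) (I : List Bool) (V : List ℕ)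
    (l : List ℕ) (hl : l.length < 2) (hlK : ∀ i ∈ l, i ≤ K) (p : ℕ) (hp : p ≤ K) (q : ℕ)
    (hq : stq q = (1, M, 0, l)) (hqB : q ≤ B) (j : ℕ) : ∃ (q' j' : ℕ),
      ORun CC2 B (bn p).length ⟨.ri, q, bn p ++ I, sv V (List.replicate j 0)⟩
        ⟨.ri, q', I, sv V (List.replicate j' 0)⟩ ∧
      stq q' = (1, M, 0, l ++ [p]) ∧ q' ≤ B := by
  obtain ⟨q1, j1, g1, g2, g3⟩ := run_dig hB hM (false :: I) V l (by omega) hlK (dg p) 0
    (by rw [val_dg]; exact hp) q hq hqB j
  rw [val_dg] at g2
  have h1 : G (bitv (false :: I)) (stq q1) = ((true, 0), (1, M, 0, l ++ [p])) := by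
    have h2 : ¬ l.length = 2 := by omega
    rw [g2]; simp [G, bitv, h2]
  refine ⟨eq' (1, M, 0, l ++ [p]), j1 + 1, ?_, stq_eq _, ?_⟩
  · have h3 : bn p ++ I = dd (dg p) ++ (false :: I) := by simp [bn]
    rw [h3, length_bn]
    refine g1.trans (ORun.one (by simp) ?_ g3 ?_)
    · have hx : OC.x ⟨.ri, q1, false :: I, sv V (List.replicate j1 0)⟩ = 1 := rfl
      rw [hx]; have := hB.two; omega
    · rw [step_I h1]; rfl
  · refine hB.sta _ (by omega) _ hM _ (by omega) _ (by simp; omega) ?_
    intro i hi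
    rw [List.mem_append, List.mem_singleton] at hi
    rcases hi with hi | rfl
    · exact hlK i hi
    · exact hp

theorem run_job {B K M k : ℕ} (hB : Bnd2 B K) (hK : K = Nat.pair k (Nat.pair k k) + 2)
    (hM : M ≤ K) (I : List Bool) (L : List (List ℕ)) (hL : LOK M L) (f : Fin 3 → ℕ)
    (hf : ∀ i, f i ≤ k) (q : ℕ) (hq : stq q = (1, M, 0, [])) (hqB : q ≤ B) (j : ℕ) :
    ∃ (n q' j' M' : ℕ),
      n ≤ (bn (f 0)).length + (bn (f 1)).length + (bn (f 2)).length + (2 * L.length + 3) ∧
      ORun CC2 B n ⟨.ri, q, bn (f 0) ++ (bn (f 1) ++ (bn (f 2) ++ I)),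
          sv (L.map ecl) (List.replicate j 0)⟩
        ⟨.ri, q', I, sv ((addL (jc f + 1) L).map ecl) (List.replicate j' 0)⟩ ∧
      stq q' = (1, M', 0, []) ∧ q' ≤ B ∧ M ≤ M' ∧ M' ≤ K ∧ LOK M' (addL (jc f + 1) L) := by
  have hkK : k ≤ K := by
    have := Nat.left_le_pair k (Nat.pair k k)
    omega
  have hjc : jc f + 2 ≤ K := by
    have h1 : jc f ≤ Nat.pair k (Nat.pair k k) := by
      unfold jc
      have h2 : Nat.pair (f 1) (f 2) ≤ Nat.pair k k := pair_mono (hf 1) (hf 2)
      exact pair_mono (hf 0) h2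
    omega
  have h0 := (hf 0).trans hkK
  have h1 := (hf 1).trans hkK
  have h2 := (hf 2).trans hkK
  obtain ⟨q1, j1, g1, g2, g3⟩ := run_num hB hM (bn (f 1) ++ (bn (f 2) ++ I)) (L.map ecl) []
    (by simp) (by simp) (f 0) h0 q hq hqB j
  obtain ⟨q2, j2, k1, k2, k3⟩ := run_num hB hM (bn (f 2) ++ I) (L.map ecl) [f 0]
    (by simp) (by simpa using h0) (f 1) h1 q1 g2 g3 j1
  obtain ⟨q3, j3, l1, l2, l3⟩ := run_dig hB hM (false :: I) (L.map ecl) [f 0, f 1] (by simp)
    (by simpa using ⟨h0, h1⟩) (dg (f 2)) 0 (by rw [val_dg]; exact h2) q2 k2 k3 j2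
  rw [val_dg] at l2
  have e1 : G (bitv (false :: I)) (stq q3) =
      ((true, 0), (3, max M (jc f + 2), jc f + 1, [])) := by
    rw [l2]; simp [G, bitv, jc]
  have hM' : max M (jc f + 2) ≤ K := max_le hM hjc
  have hq4 : eq' (3, max M (jc f + 2), jc f + 1, []) ≤ B :=
    hB.sta _ (by omega) _ hM' _ (by omega) [] (by simp) (by simp)
  have hL' : LOK (max M (jc f + 2)) L := hL.mono (le_max_left _ _)
  have ha : jc f + 1 < max M (jc f + 2) := lt_max_of_lt_right (by omega)
  obtain ⟨n5, q5, j5, m1, m2, m3, m4⟩ := run_item hB hM' ha (r := 1) (by omega) I (j3 + 1) L hL'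
    (eq' (3, max M (jc f + 2), jc f + 1, [])) (stq_eq _) hq4
  have hb2 := length_bn (f 2)
  refine ⟨(bn (f 0)).length + (bn (f 1)).length + 2 * (dg (f 2)).length + 1 + n5, q5, j5,
    max M (jc f + 2), by omega, ?_, m3, m4, le_max_left _ _, hM', hL'.addL ha⟩
  have e3 : bn (f 2) ++ I = dd (dg (f 2)) ++ (false :: I) := by simp [bn]
  rw [e3] at k1 g1 ⊢
  refine (((g1.trans k1).trans l1).trans (ORun.one (by simp) ?_ l3 ?_)).trans m2
  · have hx : OC.x ⟨.ri, q3, false :: I, sv (L.map ecl) (List.replicate j3 0)⟩ = 1 := rfl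
    rw [hx]; have := hB.two; omega
  · rw [step_I e1]; rfl

/-- The bits of a list of jobs. -/
def jbits2 (js : List (Fin 3 → ℕ)) : List Bool :=
  js.flatMap (fun f => bn (f 0) ++ (bn (f 1) ++ bn (f 2)))

theorem run_jobs {B K k : ℕ} (hB : Bnd2 B K) (hK : K = Nat.pair k (Nat.pair k k) + 2)
    (I : List Bool) (X : ℕ) : ∀ (js : List (Fin 3 → ℕ)) (_ : ∀ f ∈ js, ∀ i, f i ≤ k) (M : ℕ)
      (_ : M ≤ K) (L : List (List ℕ)) (_ : LOK M L) (_ : L.length + js.length ≤ X) (q : ℕ)
      (_ : stq q = (1, M, 0, [])) (_ : q ≤ B) (j : ℕ),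
      ∃ (n q' j' M' : ℕ) (L' : List (List ℕ)),
      n ≤ (jbits2 js).length + js.length * (2 * X + 3) ∧
      ORun CC2 B n ⟨.ri, q, jbits2 js ++ I, sv (L.map ecl) (List.replicate j 0)⟩
        ⟨.ri, q', I, sv (L'.map ecl) (List.replicate j' 0)⟩ ∧
      stq q' = (1, M', 0, []) ∧ q' ≤ B ∧ M ≤ M' ∧ M' ≤ K ∧ LOK M' L' ∧
      L'.length ≤ L.length + js.length ∧
      lval L' = ((js.map (fun f => jc f + 1) : List ℕ) : Multiset ℕ) + lval L := by
  intro js
  induction js with
  | nil =>
    intro _ M hM L hL _ q hq hqB j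
    exact ⟨0, q, j, M, L, by simp, ORun.refl _, hq, hqB, le_rfl, hM, hL, by simp, by simp⟩
  | cons f js ih =>
    intro hf M hM L hL hX q hq hqB j
    simp only [List.length_cons] at hX
    obtain ⟨n1, q1, j1, M1, g1, g2, g3, g4, g5, g6, g7⟩ := run_job hB hK hM (jbits2 js ++ I) L hL f
      (hf f (by simp)) q hq hqB j
    have hlen := length_addL (jc f + 1) L
    obtain ⟨n2, q2, j2, M2, L2, k1, k2, k3, k4, k5, k6, k7, k8, k9⟩ := ih
      (fun f' hf' => hf f' (by simp [hf'])) M1 g6 (addL (jc f + 1) L) g7 (by omega) q1 g3 g4 j1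
    have hbits : jbits2 (f :: js) ++ I =
        bn (f 0) ++ (bn (f 1) ++ (bn (f 2) ++ (jbits2 js ++ I))) := by
      simp [jbits2]
    have hblen : (jbits2 (f :: js)).length =
        (bn (f 0)).length + (bn (f 1)).length + (bn (f 2)).length + (jbits2 js).length := by
      simp [jbits2]; ring
    refine ⟨n1 + n2, q2, j2, M2, L2, ?_, ?_, k3, k4, g5.trans k5, k6, k7, ?_, ?_⟩
    · rw [hblen, List.length_cons, Nat.add_mul, one_mul]; omega
    · rw [hbits]; exact g2.trans k2
    · rw [List.length_cons]; omega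
    · rw [k9, lval_addL, List.map_cons, ← Multiset.cons_coe, ← Multiset.singleton_add]; abel


theorem run_rev {B K M : ℕ} (hB : Bnd2 B K) (hM : M ≤ K) (I : List Bool) :
    ∀ (L : List (List ℕ)) (_ : LOK M L) (q : ℕ) (_ : stq q = (6, M, 0, [])) (_ : q ≤ B)
      (Wt : List ℕ), ∃ q', ORun CC2 B (L.length + 1) ⟨.rv false, q, I, sv (L.map ecl) Wt⟩
        ⟨.rv true, q', I, sv [0] (L.reverse.map ecl ++ Wt)⟩ ∧ stq q' = (7, M, 0, []) ∧ q' ≤ B := by
  have hq6 : eq' (6, M, 0, []) ≤ B := hB.sta _ (by omega) _ hM _ (by omega) [] (by simp) (by simp)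
  have hq7 : eq' (7, M, 0, []) ≤ B := hB.sta _ (by omega) _ hM _ (by omega) [] (by simp) (by simp)
  intro L
  induction L with
  | nil =>
    intro _ q hq hqB Wt
    have h1 : G ([] : List ℕ).headI (stq q) = ((false, 0), (7, M, 0, [])) := by
      rw [hq]; simp [G]
    refine ⟨eq' (7, M, 0, []), ORun.one (by simp) (Nat.zero_le _) hqB ?_, stq_eq _, hq7⟩
    rw [List.map_nil, step_V h1]; rfl
  | cons P L ih =>
    intro hL q hq hqB Wt
    have hx : OC.x ⟨.rv false, q, I, sv ((P :: L).map ecl) Wt⟩ = ecl P := rfl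
    have hxB : ecl P ≤ B := hB.lev P (hL P (by simp)).1
      (fun i hi => ((hL P (by simp)).2 i hi).trans_le hM)
    have h1 : G ((P :: L).map ecl).headI (stq q) = ((true, ecl P), (6, M, 0, [])) := by
      rw [hq]; simp [G, ecl_ne]
    obtain ⟨q', g1, g2, g3⟩ := ih (fun Q hQ => hL Q (by simp [hQ])) (eq' (6, M, 0, [])) (stq_eq _)
      hq6 (ecl P :: Wt)
    refine ⟨q', ORun.step _ _ _ (by simp) (by rw [hx]; exact hxB) hqB ?_, g2, g3⟩
    rw [step_V h1]
    simpa using! g1

theorem run_fold {B K M : ℕ} (hB : Bnd2 B K) (hM : M ≤ K) (hM1 : 1 ≤ M) (I : List Bool) (j : ℕ) :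
    ∀ (R : List (List ℕ)) (_ : LOK M R) (h : List ℕ) (_ : h ∈ cands M) (pr : List (Multiset ℕ))
      (_ : Good M pr) (_ : EqvF M (h : Multiset ℕ) (mrun 0 pr)) (q : ℕ)
      (_ : stq q = (7, M, 0, h)) (_ : q ≤ B) (V : List ℕ), ∃ (q' : ℕ) (h' V' W' : List ℕ),
      ORun CC2 B (R.length + 1) ⟨.rv true, q, I, sv V (R.map ecl ++ List.replicate j 0)⟩
        ⟨.hl (decide (sdec M h')), q', I, sv V' W'⟩ ∧ h' ∈ cands M ∧
      EqvF M (h' : Multiset ℕ) (mrun 0 (pr ++ R.map Multiset.ofList)) := by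
  intro R
  induction R with
  | nil =>
    intro _ h hh pr _ he q hq hqB V
    have h1 : G (List.replicate j 0).headI (stq q) =
        ((decide (sdec M h), 0), (8, M, 0, [])) := by
      rw [hq, headI_replicate]; simp [G]
    have hx : OC.x ⟨.rv true, q, I, sv V (List.map ecl [] ++ List.replicate j 0)⟩ = 0 :=
      headI_replicate j
    refine ⟨eq' (8, M, 0, []), h, cond (decide (sdec M h)) V (0 :: V),
      cond (decide (sdec M h)) (0 :: (List.replicate j 0).tail) (List.replicate j 0).tail,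
      ORun.one (by simp) (by rw [hx]; exact Nat.zero_le _) hqB ?_, hh, by simpa using he⟩
    rw [List.map_nil, List.nil_append, step_W h1]
    rfl
  | cons P R ih =>
    intro hR h hh pr hpr he q hq hqB V
    have hP := hR P (by simp)
    have hxB : ecl P ≤ B := hB.lev P hP.1 (fun i hi => (hP.2 i hi).trans_le hM)
    have hx : OC.x ⟨.rv true, q, I, sv V ((P :: R).map ecl ++ List.replicate j 0)⟩ = ecl P := rfl
    have hPg : GoodD M (P : Multiset ℕ) := ⟨by simpa using hP.1, by simpa using hP.2⟩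
    have hPg1 : Good M [(P : Multiset ℕ)] := by
      intro Q hQ
      rw [List.mem_singleton] at hQ
      rw [hQ]; exact hPg
    set v := h ++ (h ++ P) with hv
    have hvlt : ∀ i ∈ v, i < M := by
      intro i hi
      rw [hv, List.mem_append, List.mem_append] at hi
      rcases hi with hi | hi | hi
      · exact cands_lt hh i hi
      · exact cands_lt hh i hi
      · exact hP.2 i hi
    have hev : EqvF M (v : Multiset ℕ) (mrun 0 (pr ++ [(P : Multiset ℕ)])) := by
      have h2 := Eqv.mrun he hPg1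
      rw [← mrun_append] at h2
      have h3 : mrun (h : Multiset ℕ) [(P : Multiset ℕ)] = (v : Multiset ℕ) := by
        rw [mrun_cons, mrun_nil, hv, ← Multiset.coe_add, ← Multiset.coe_add, add_assoc]
      rw [h3] at h2
      exact h2
    have hgood : Good M (pr ++ [(P : Multiset ℕ)]) := hpr.append hPg1
    obtain ⟨s1, s2⟩ := red_spec hM1 hvlt ⟨_, hgood, hev⟩
    have h1 : G ((P :: R).map ecl ++ List.replicate j 0).headI (stq q) =
        ((false, 0), (7, M, 0, red M v)) := by
      rw [hq]; simp [G, ecl_ne, dcl_ecl, hv]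
    obtain ⟨q', h', V', W', g1, g2, g3⟩ := ih (fun Q hQ => hR Q (by simp [hQ])) (red M v) s1
      (pr ++ [(P : Multiset ℕ)]) hgood (s2.trans hev) (eq' (7, M, 0, red M v)) (stq_eq _)
      (hB.cnd M hM _ s1) (0 :: V)
    refine ⟨q', h', V', W', ORun.step _ _ _ (by simp) (by rw [hx]; exact hxB) hqB ?_, g2, ?_⟩
    · rw [step_W h1]
      exact g1
    · simpa using g3


/-! ### The complete run -/

theorem bits_eq (js : List (Fin 3 → ℕ)) :
    ((js.map (fun f => List.ofFn (fun i : Fin 3 => f i))).flatten).flatMap bn = jbits2 js := by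
  induction js with
  | nil => rfl
  | cons f js ih =>
    have h1 : List.ofFn (fun i : Fin 3 => f i) = [f 0, f 1, f 2] := by
      simp [List.ofFn_succ]
    rw [List.map_cons, List.flatten_cons, List.flatMap_append, ih, h1]
    simp [jbits2]

theorem length_jbits2 (js : List (Fin 3 → ℕ)) : 3 * js.length ≤ (jbits2 js).length := by
  induction js with
  | nil => simp
  | cons f js ih =>
    have hblen : (jbits2 (f :: js)).length =
        (bn (f 0)).length + (bn (f 1)).length + (bn (f 2)).length + (jbits2 js).length := by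
      simp [jbits2]; ring
    have h0 := length_bn (f 0)
    have h1 := length_bn (f 1)
    have h2 := length_bn (f 2)
    rw [hblen, List.length_cons]; omega

theorem run_all2 {B k n : ℕ} (p : Fin n → Fin 3 → ℕ) (T : ℕ) (hk : ∀ j i, p j i ≤ k)
    (hB : Bnd2 B (Nat.pair k (Nat.pair k k) + 2)) (w : List Bool)
    (hw : w = (T :: (List.ofFn (fun j : Fin n => List.ofFn (fun i : Fin 3 => p j i))).flatten).flatMap
            bn) :
    ∃ (m : ℕ) (c' : OC) (b : Bool), ORun CC2 B m ⟨.ri, 0, w, fun _ => []⟩ c' ∧ c'.dir = .hl b ∧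
      c'.I = [] ∧ (b = true ↔ ∃ s, IsSched n p T s) ∧ m ≤ 7 * (w.length + 1) ^ 2 := by
  set K := Nat.pair k (Nat.pair k k) + 2 with hK
  set js := List.ofFn p with hjs
  have hw' : w = dd (dg T) ++ (false :: jbits2 js) := by
    rw [hw, List.flatMap_cons]
    have h1 : (List.ofFn (fun j : Fin n => List.ofFn (fun i : Fin 3 => p j i))) =
        js.map (fun f => List.ofFn (fun i : Fin 3 => f i)) := by
      rw [hjs, List.map_ofFn]; rfl
    rw [h1, bits_eq]; simp [bn]
  have hlen : js.length = n := by rw [hjs, List.length_ofFn]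
  have hjf : ∀ f ∈ js, ∀ i, f i ≤ k := by
    intro f hf i
    rw [hjs, List.mem_ofFn] at hf
    obtain ⟨j, rfl⟩ := hf
    exact hk j i
  set D := (dg T).length with hD
  -- parse `T`
  obtain ⟨q1, j1, L1, a2, a3, a4, a5, a6, a7⟩ := run_T hB (by omega)
    (false :: jbits2 js) (dg T) [] (by intro P hP; simp at hP) 0 (by simp) 0 rfl (Nat.zero_le _) 0
  rw [val_dg] at a7
  have e1 : G (bitv (false :: jbits2 js)) (stq q1) = ((true, 0), (1, 1, 0, [])) := by
    rw [a3]; simp [G, bitv]
  have hq1 : eq' (1, 1, 0, []) ≤ B :=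
    hB.sta _ (by omega) _ (by omega) _ (by omega) [] (by simp) (by simp)
  have b1 : ORun CC2 B 1 ⟨.ri, q1, false :: jbits2 js, sv (L1.map ecl) (List.replicate j1 0)⟩
      ⟨.ri, eq' (1, 1, 0, []), jbits2 js ++ [], sv (L1.map ecl) (List.replicate (j1 + 1) 0)⟩ := by
    refine ORun.one (by simp) ?_ a4 ?_
    · have hx : OC.x ⟨.ri, q1, false :: jbits2 js,
        sv (L1.map ecl) (List.replicate j1 0)⟩ = 1 := rfl
      rw [hx]; have := hB.two; omega
    · rw [step_I e1, List.append_nil]; rfl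
  -- parse the jobs
  simp only [List.length_nil, Nat.zero_add] at a6
  obtain ⟨n2, q2, j2, M, L2, c1, c2, c3, c4, c5, c6, c7, c8, c9⟩ := run_jobs hB hK [] (D + n) js
    hjf 1 (by omega) L1 a5 (by rw [hlen]; omega) (eq' (1, 1, 0, [])) (stq_eq _) hq1 (j1 + 1)
  have e2 : G (bitv []) (stq q2) = ((true, 0), (6, M, 0, [])) := by
    rw [c3]; simp [G, bitv]
  have hq2 : eq' (6, M, 0, []) ≤ B :=
    hB.sta _ (by omega) _ c6 _ (by omega) [] (by simp) (by simp)
  have b2 : ORun CC2 B 1 ⟨.ri, q2, [], sv (L2.map ecl) (List.replicate j2 0)⟩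
      ⟨.rv false, eq' (6, M, 0, []), [], sv (L2.map ecl) (List.replicate (j2 + 1) 0)⟩ := by
    refine ORun.one (by simp) (Nat.zero_le _) c4 ?_
    rw [step_I e2]; rfl
  -- reversal
  obtain ⟨q3, d1, d2, d3⟩ := run_rev hB c6 [] L2 c7 (eq' (6, M, 0, [])) (stq_eq _) hq2
    (List.replicate (j2 + 1) 0)
  -- fold
  have hLr : LOK M L2.reverse := fun P hP => c7 P (by simpa using hP)
  obtain ⟨q4, h', V', W', f1, f2, f3⟩ := run_fold hB c6 c5 [] (j2 + 1) L2.reverse hLr []
    (nil_mem_cands M) [] (by intro P hP; simp at hP) (Eqv.refl _ _) q3 d2 d3 [0]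
  have hrun := ((((a2.trans b1).trans c2).trans b2).trans d1).trans f1
  have hstart : (⟨.ri, 0, w, fun _ => []⟩ : OC) =
      ⟨.ri, 0, dd (dg T) ++ (false :: jbits2 js), sv (([] : List (List ℕ)).map ecl)
        (List.replicate 0 0)⟩ := by
    rw [hw']
    congr 1
    funext b; cases b <;> rfl
  rw [← hstart] at hrun
  refine ⟨_, _, decide (sdec M h'), hrun, rfl, rfl, ?_, ?_⟩
  · rw [decide_eq_true_iff, sdec_iff c5 (cands_lt f2), sched_iff]
    have g1 := f3 [] (by intro P hP; simp at hP)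
    rw [mrun_nil, mrun_nil, List.nil_append] at g1
    have g2 : mrun 0 (L2.reverse.map Multiset.ofList) = lval L2 := rfl
    rw [g1, g2, c9, a7]
    have g3 : ((js.map (fun f => jc f + 1) : List ℕ) : Multiset ℕ) + Multiset.replicate T 0 =
        (inst n p T : Multiset ℕ) := by
      unfold inst
      rw [← Multiset.coe_add, Multiset.coe_replicate, hjs, List.map_ofFn, add_comm]
      rfl
    rw [g3]
  · have hL2 : L2.length ≤ D + n := by omega
    have hwl : w.length = 2 * D + 1 + (jbits2 js).length := by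
      rw [hw', List.length_append, length_dd, List.length_cons]; ring
    have hj3 := length_jbits2 js
    rw [hlen] at hj3 c1
    have hX : D + n ≤ w.length := by omega
    rw [List.length_reverse]
    have h2 : n * (2 * (D + n) + 3) ≤ w.length * (2 * w.length + 3) :=
      Nat.mul_le_mul (by omega) (by omega)
    nlinarith

end Pool.Agent.Helper73.FSB
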